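import Pool.Agent.Y376.KD.Final

/-!
# The smallest order of vertex `k`-domination-critical graphs in terms of the minimum `k`-degree

Definitions (`Pool.Agent.Y376.KD.Core`): `domNumber G k` is the `k`-domination number `γ_k(G)`,
`minKDegree G k` the minimum `k`-degree `δ_k(G)`, and `IsKCritical G k` says that the deletion of
any vertex lowers `γ_k` (distances measured in the remaining graph).

The question asks whether `n ≥ (δ_k + 1)(γ_k - 1) + 1` for connected `γ_k`-critical graphs with
`k ≥ 2`, `γ_k ≥ 3`. We determine the right bound up to a constant factor. Put `ℓ = γ_k`.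

* For all `k ≥ 2` and `ℓ ≥ 3` there are arbitrarily large connected `(γ_k, ℓ)`-critical graphs with
  `n ≤ (δ_k + 1)(ℓ - 1)`: the answer is no for every pair.
* More strongly, for all `k ≥ 1`, `ℓ ≥ 2`, `ε > 0` there are such graphs with
  `n ≤ (1 + ε)(δ_k + 1)`; so the factor `γ_k - 1` cannot be replaced by any number larger than `1`,
  whatever `k` and `γ_k` are.
* For all `k ≥ 1`, `ℓ ≥ 2` there are such graphs with
  `(n - 1 - δ_k) ^ (ℓ - 1) ≤ C n ^ (ℓ - 2)`, `C = (4 (ℓ - 1) ^ (k - 1)) ^ (ℓ - 1)`.
* Every finite graph with `γ_k = ℓ ≥ 2` satisfies `n ^ (ℓ - 2) ≤ (n - 1 - δ_k) ^ (ℓ - 1)`.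

So the least possible value of `n - 1 - δ_k` has order `n ^ ((ℓ - 2) / (ℓ - 1))`.

The graphs. Let `q` be a prime and `X` the set of the points of the projective space
`PG(ℓ - 1, q)` together with a second copy of each self-orthogonal point; two different elements of
`X` are *far* if their points are orthogonal. Any `ℓ - 1` elements have a common far element, and
each element is the only common far element of some `ℓ - 1` elements. The graph is the Cartesian
product of the complement of the far relation on `X` with `k - 1` complete graphs on `ℓ` vertices: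
two vertices have distance larger than `k` if and only if they are far in the first coordinate and
different in all others.
-/

set_option autoImplicit false

namespace Pool.Agent.Results.MP_940262_co.SharpOrder

open Pool.Agent.Y376.KD

theorem result :
    -- the answer to the question: the bound fails for every pair `(k, l)`
    (∀ k l : ℕ, 2 ≤ k → 3 ≤ l → ∀ N : ℕ,
      ∃ (V : Type) (_ : Fintype V) (G : SimpleGraph V),
        G.Connected ∧ IsKCritical G k ∧ domNumber G k = l ∧ N ≤ Fintype.card V ∧
        Fintype.card V ≤ (minKDegree G k + 1) * (l - 1)) ∧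
    -- no constant factor larger than one is possible
    (∀ k l : ℕ, 1 ≤ k → 2 ≤ l → ∀ ε : ℝ, 0 < ε → ∀ N : ℕ,
      ∃ (V : Type) (_ : Fintype V) (G : SimpleGraph V),
        G.Connected ∧ IsKCritical G k ∧ domNumber G k = l ∧ N ≤ Fintype.card V ∧
        (Fintype.card V : ℝ) ≤ (1 + ε) * (minKDegree G k + 1)) ∧
    -- the order of magnitude of `n - 1 - δ_k`: examples
    (∀ k l : ℕ, 1 ≤ k → 2 ≤ l → ∀ N : ℕ,
      ∃ (V : Type) (_ : Fintype V) (G : SimpleGraph V),
        G.Connected ∧ IsKCritical G k ∧ domNumber G k = l ∧ N ≤ Fintype.card V ∧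
        (Fintype.card V - 1 - minKDegree G k) ^ (l - 1) ≤
          (4 * (l - 1) ^ (k - 1)) ^ (l - 1) * Fintype.card V ^ (l - 2)) ∧
    -- the order of magnitude of `n - 1 - δ_k`: lower bound
    (∀ k l : ℕ, 2 ≤ l → ∀ (V : Type) [Fintype V] (G : SimpleGraph V), domNumber G k = l →
      Fintype.card V ^ (l - 2) ≤ (Fintype.card V - 1 - minKDegree G k) ^ (l - 1)) :=
  ⟨fun k l hk hl N => answer k l hk hl N, fun k l hk hl ε hε N => ratio k l hk hl ε hε N,
    fun k l hk hl N => upper k l hk hl N, fun k l hl V _ G h => lower' k l hl V G h⟩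

end Pool.Agent.Results.MP_940262_co.SharpOrder
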